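import Pool.Agent.H59.L.T374d34.N483.KM.Stm
import Pool.Agent.H59.L.S8.R755.KF.P2

/-!
# KM4: one step of the tail estimate
-/

set_option autoImplicit false

namespace Pool.Agent.N488.KM

open MeasureTheory Set Filter Topology
open scoped ENNReal InnerProductSpace
open Pool.Agent.H888R2.KT (gs gc gc_pos)
open Pool.Agent.R754.KG (E)
open Pool.Agent.R755.KF
open Pool.Agent.N483.KM

variable {k : ℕ}

/-- Fubini for bounded measurable functions and finite measures -/
theorem int_prod {h C : ℝ} {μ : Measure (E k)} [IsFiniteMeasure μ] {f : E k → ℝ} (hh : 0 < h)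
    (hf : Measurable f) (hC : ∀ y, |f y| ≤ C) :
    Integrable (fun z : E k × E k => f z.2 * Real.exp (-(‖z.1 - z.2‖ ^ 2 / (2 * h))))
      (μ.prod volume) := by
  obtain ⟨hg0, hg1, hg2, hg3⟩ := gc_pos (κ := Fin k) h hh
  have hm : Measurable (fun z : E k × E k =>
      f z.2 * Real.exp (-(‖z.1 - z.2‖ ^ 2 / (2 * h)))) :=
    (hf.comp measurable_snd).mul (by fun_prop)
  have hin : ∀ x : E k, Integrable (fun y => f y * Real.exp (-(‖x - y‖ ^ 2 / (2 * h)))) := by
    intro x
    refine ((hg2 x).const_mul C).mono' ?_ (Eventually.of_forall fun y => ?_)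
    · exact (hf.mul (by fun_prop)).aestronglyMeasurable
    · rw [norm_mul, Real.norm_eq_abs, Real.norm_of_nonneg (Real.exp_pos _).le]
      exact mul_le_mul_of_nonneg_right (hC y) (Real.exp_pos _).le
  rw [integrable_prod_iff hm.aestronglyMeasurable]
  refine ⟨Eventually.of_forall fun x => hin x, ?_⟩
  refine Integrable.mono' (integrable_const (C * gc (Fin k) h)) ?_ ?_
  · exact hm.norm.aestronglyMeasurable.integral_prod_right'
  · refine Eventually.of_forall fun x => ?_
    rw [Real.norm_of_nonneg (integral_nonneg fun y => norm_nonneg _)]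
    calc ∫ y, ‖f y * Real.exp (-(‖x - y‖ ^ 2 / (2 * h)))‖
        ≤ ∫ y, C * Real.exp (-(‖x - y‖ ^ 2 / (2 * h))) := by
          refine integral_mono (hin x).norm ((hg2 x).const_mul C) fun y => ?_
          simp only
          rw [norm_mul, Real.norm_eq_abs, Real.norm_of_nonneg (Real.exp_pos _).le]
          exact mul_le_mul_of_nonneg_right (hC y) (Real.exp_pos _).le
      _ = _ := by rw [integral_const_mul, hg1]

/-- Fubini: integrals against the density -/
theorem swap {h C : ℝ} {μ : Measure (E k)} [IsFiniteMeasure μ] {f : E k → ℝ} (hh : 0 < h)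
    (hf : Measurable f) (hC : ∀ y, |f y| ≤ C) :
    Integrable (gs h f) μ ∧
    Integrable (fun y => f y * ∫ x, Real.exp (-(‖x - y‖ ^ 2 / (2 * h))) ∂μ) ∧
    (∫ y, f y * ∫ x, Real.exp (-(‖x - y‖ ^ 2 / (2 * h))) ∂μ) =
      gc (Fin k) h * ∫ x, gs h f x ∂μ := by
  obtain ⟨hg0, hg1, hg2, hg3⟩ := gc_pos (κ := Fin k) h hh
  have hI := int_prod (μ := μ) hh hf hC
  have hy : ∀ y, ∫ x, f y * Real.exp (-(‖x - y‖ ^ 2 / (2 * h))) ∂μ =
      f y * ∫ x, Real.exp (-(‖x - y‖ ^ 2 / (2 * h))) ∂μ := by
    intro y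
    rw [integral_const_mul]
  have hx : ∀ x, ∫ y, f y * Real.exp (-(‖x - y‖ ^ 2 / (2 * h))) = gc (Fin k) h * gs h f x := by
    intro x
    unfold gs
    rw [mul_div_cancel₀ _ hg0.ne']
  refine ⟨?_, ?_, ?_⟩
  · have h1 := (hI.integral_prod_left).const_mul (gc (Fin k) h)⁻¹
    refine h1.congr (Filter.Eventually.of_forall fun x => ?_)
    simp only
    rw [hx, ← mul_assoc, inv_mul_cancel₀ hg0.ne', one_mul]
  · have h1 := hI.integral_prod_right
    exact h1.congr (Filter.Eventually.of_forall fun y => hy y)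
  · have h1 := integral_integral_swap (f := fun x y =>
      f y * Real.exp (-(‖x - y‖ ^ 2 / (2 * h)))) hI
    simp only [hy, hx] at h1
    rw [integral_const_mul] at h1
    exact h1.symm

/-- continuity of the densities -/
theorem dcont {h : ℝ} {μ : Measure (E k)} [IsFiniteMeasure μ] (hh : 0 < h) :
    Continuous (fun y : E k => ∫ x, Real.exp (-(‖x - y‖ ^ 2 / (2 * h))) ∂μ) := by
  refine continuous_of_dominated (bound := fun _ => (1 : ℝ)) ?_ ?_ (integrable_const _) ?_
  · intro y
    exact (by fun_prop : Continuous fun x : E k =>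
      Real.exp (-(‖x - y‖ ^ 2 / (2 * h)))).aestronglyMeasurable
  · intro y
    refine Eventually.of_forall fun x => ?_
    rw [Real.norm_of_nonneg (Real.exp_pos _).le]
    exact P2aux.Kn_le_one hh x y
  · refine Eventually.of_forall fun x => ?_
    fun_prop

theorem gs_nonneg {h : ℝ} (hh : 0 < h) {f : E k → ℝ} (hf : ∀ y, 0 ≤ f y) (x : E k) :
    0 ≤ gs h f x := by
  unfold gs
  exact div_nonneg (integral_nonneg fun y => mul_nonneg (hf y) (Real.exp_pos _).le)
    (gc_pos (κ := Fin k) h hh).1.le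

theorem gs_le_one {h : ℝ} (hh : 0 < h) {f : E k → ℝ} (hf : ∀ y, 0 ≤ f y) (hf1 : ∀ y, f y ≤ 1)
    (hm : Measurable f) (x : E k) : gs h f x ≤ 1 := by
  obtain ⟨hg0, hg1, hg2, hg3⟩ := gc_pos (κ := Fin k) h hh
  unfold gs
  rw [div_le_one hg0, ← hg1 x]
  refine integral_mono ?_ (hg2 x) fun y => ?_
  · refine (hg2 x).mono' (hm.mul (by fun_prop)).aestronglyMeasurable
      (Eventually.of_forall fun y => ?_)
    rw [norm_mul, Real.norm_of_nonneg (hf y), Real.norm_of_nonneg (Real.exp_pos _).le]
    exact mul_le_of_le_one_left (Real.exp_pos _).le (hf1 y)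
  · exact mul_le_of_le_one_left (Real.exp_pos _).le (hf1 y)

/-- the numbers in Claim 2 -/
theorem num2 {j : ℕ} (hj : 20000 ≤ j) {R : ℝ} (hR : 0 < R) :
    Real.exp (-((1 - 4 / (j : ℝ)) / (2 * (2 * (21 / 10 * R) ^ 2 / (j * Real.log 2)) *
      (4 / (j : ℝ))) * (R / 10) ^ 2)) ≤ (1 / 4 : ℝ) ^ j := by
  have hj' : (20000 : ℝ) ≤ j := by exact_mod_cast hj
  have hL : 0 < Real.log 2 := Real.log_pos (by norm_num)
  have e1 : (1 - 4 / (j : ℝ)) / (2 * (2 * (21 / 10 * R) ^ 2 / (j * Real.log 2)) *
      (4 / (j : ℝ))) * (R / 10) ^ 2 = (j - 4) * j * Real.log 2 / 7056 := by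
    have hj0 : (j : ℝ) ≠ 0 := by linarith
    field_simp
    ring
  rw [e1]
  have e2 : (1 / 4 : ℝ) ^ j = Real.exp (-(2 * j * Real.log 2)) := by
    have e3 : (1 / 4 : ℝ) = Real.exp (-(2 * Real.log 2)) := by
      rw [show (2 : ℝ) * Real.log 2 = Real.log (2 ^ 2) by
        rw [Real.log_pow]; norm_num, Real.exp_neg, Real.exp_log (by norm_num)]
      norm_num
    rw [e3, ← Real.exp_nat_mul]
    congr 1
    ring
  rw [e2]
  apply Real.exp_le_exp.2
  have h1 : 2 * (j : ℝ) * 7056 ≤ (j - 4) * j := by nlinarith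
  have h2 := mul_le_mul_of_nonneg_right h1 hL.le
  linarith

/-- KM4 -/
theorem t_STEP (h1 : S_CPL) (h2 : S_SHF) : S_STEP := by
  refine ⟨20000, by norm_num, ?_⟩
  intro k ν B0 R j hPB hPLS hj hR hEN B hB hpB
  have := hPB.prob
  have hj' : (20000 : ℝ) ≤ j := by exact_mod_cast hj
  have hjp : (0 : ℝ) < j := by linarith
  have hL : 0 < Real.log 2 := Real.log_pos (by norm_num)
  by_contra hlt
  rw [not_le] at hlt
  -- the parameters
  obtain ⟨p, hp⟩ : ∃ p : ℝ, p = (1 / 4) ^ j := ⟨_, rfl⟩
  obtain ⟨b, hb⟩ : ∃ b : ℝ, b = ν.real B := ⟨_, rfl⟩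
  obtain ⟨τ, hτ⟩ : ∃ τ : ℝ, τ = (1 / 2) ^ j := ⟨_, rfl⟩
  obtain ⟨h, hhdef⟩ : ∃ h : ℝ, h = 2 * (21 / 10 * R) ^ 2 / (j * Real.log 2) := ⟨_, rfl⟩
  obtain ⟨s, hs⟩ : ∃ s : ℝ, s = 4 / (j : ℝ) := ⟨_, rfl⟩
  have hp0 : 0 < p := by rw [hp]; positivity
  have hτ0 : 0 < τ := by rw [hτ]; positivity
  have hττ : τ ^ 2 = p := by
    rw [hτ, hp, ← pow_mul, mul_comm, pow_mul]; norm_num
  have hh : 0 < h := by rw [hhdef]; positivity
  have hs0 : 0 < s := by rw [hs]; positivity
  have hs1 : s < 1 := by
    rw [hs, div_lt_one hjp]; linarith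
  have hpb : p ≤ b := by rw [hp, hb]; exact hpB
  have hb0 : 0 < b := hp0.trans_le hpb
  have hbth : b ≤ ν.real (Metric.thickening (R / 10) B) := by
    rw [hb]
    exact measureReal_mono (Metric.self_subset_thickening (by positivity) B)
  have hb4 : b < 4 * p := by
    rw [hp]; exact hbth.trans_lt hlt
  have hBne : B.Nonempty := by
    rw [nonempty_iff_ne_empty]
    rintro rfl
    rw [measureReal_empty] at hb
    linarith
  obtain ⟨hg0, hg1, hg2, hg3⟩ := gc_pos (κ := Fin k) h hh
  -- densities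
  have hzc : Continuous (zn h ν) := dcont (μ := ν) hh
  have hnc : Continuous (nz h ν B) := dcont (μ := ν.restrict B) hh
  have hzp : ∀ y, 0 < zn h ν y := fun y => integral_exp_pos (P2aux.Kn_int hh y)
  have hn0 : ∀ y, 0 ≤ nz h ν B y := fun y => integral_nonneg fun _ => (Real.exp_pos _).le
  have hnz : ∀ y, nz h ν B y ≤ zn h ν y := fun y =>
    setIntegral_le_integral (P2aux.Kn_int hh y) (Eventually.of_forall fun _ => (Real.exp_pos _).le)
  set β : E k → ℝ := fun y => nz h ν B y / zn h ν y with hβ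
  have hβm : Measurable β := hnc.measurable.div hzc.measurable
  have hβ0 : ∀ y, 0 ≤ β y := fun y => div_nonneg (hn0 y) (hzp y).le
  have hβz : ∀ y, β y * zn h ν y = nz h ν B y := fun y => div_mul_cancel₀ _ (hzp y).ne'
  set U : Set (E k) := {y | τ < β y} with hU
  have hUm : MeasurableSet U := measurableSet_lt measurable_const hβm
  set f : E k → ℝ := U.indicator fun _ => (1 : ℝ) with hf
  have hfm : Measurable f := measurable_const.indicator hUm
  have hf0 : ∀ y, 0 ≤ f y := fun y => indicator_nonneg (fun _ _ => zero_le_one) y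
  have hf1 : ∀ y, f y ≤ 1 := fun y => by
    rw [hf]; exact indicator_le_self' (fun _ _ => zero_le_one) y
  have hfb : ∀ y, |f y| ≤ 1 := fun y => by rw [abs_of_nonneg (hf0 y)]; exact hf1 y
  set u : E k → ℝ := gs h f with hu
  have hu0 : ∀ x, 0 ≤ u x := fun x => gs_nonneg hh hf0 x
  have hu1 : ∀ x, u x ≤ 1 := fun x => gs_le_one hh hf0 hf1 hfm x
  obtain ⟨hi1, hi2, hi3⟩ := swap (μ := ν) hh hfm hfb
  obtain ⟨hi4, hi5, hi6⟩ := swap (μ := ν.restrict B) hh hfm hfb
  obtain ⟨hi7, hi8, hi9⟩ := swap (μ := ν.restrict B) (f := fun _ => (1 : ℝ)) (C := 1) hh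
    measurable_const (by simp)
  change Integrable (fun y => f y * zn h ν y) at hi2
  change (∫ y, f y * zn h ν y) = gc (Fin k) h * ∫ x, u x ∂ν at hi3
  change Integrable (fun y => f y * nz h ν B y) at hi5
  change (∫ y, f y * nz h ν B y) = gc (Fin k) h * ∫ x in B, u x ∂ν at hi6
  change Integrable (fun y => (1 : ℝ) * nz h ν B y) at hi8
  change (∫ y, (1 : ℝ) * nz h ν B y) = gc (Fin k) h * ∫ x in B, gs h (fun _ => (1 : ℝ)) x ∂ν at hi9
  have hg1' : ∀ x : E k, gs h (fun _ => (1 : ℝ)) x = 1 := by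
    intro x
    unfold gs
    simp only [one_mul]
    rw [hg1, div_self hg0.ne']
  simp only [hg1', one_mul] at hi8 hi9
  have hib : ∫ y, nz h ν B y = gc (Fin k) h * b := by
    rw [hi9, hb]; simp
  have hum : Measurable u := by
    have : u = fun x => (∫ y, f y * Real.exp (-(‖x - y‖ ^ 2 / (2 * h)))) / gc (Fin k) h := rfl
    rw [this]
    refine Measurable.div_const ?_ _
    refine StronglyMeasurable.measurable ?_
    refine StronglyMeasurable.integral_prod_right (f := fun x y =>
      f y * Real.exp (-(‖x - y‖ ^ 2 / (2 * h)))) ?_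
    exact ((hfm.comp measurable_snd).mul (by fun_prop)).stronglyMeasurable
  -- Claim 1
  have claim1 : ∫ y, f y * nz h ν B y ≤ gc (Fin k) h * (b / 2) := by
    by_contra hcon
    rw [not_le, hi6] at hcon
    have hcon' : b / 2 < ∫ x in B, u x ∂ν := lt_of_mul_lt_mul_left hcon hg0.le
    set B' : Set (E k) := B ∩ {x | 1 / 4 ≤ u x} with hB'
    have hB'm : MeasurableSet B' := hB.inter (measurableSet_le measurable_const hum)
    have h3 : ∫ x in B, u x ∂ν ≤ ν.real B' + b / 4 := by
      have h4 : ∫ x in B, u x ∂ν ≤ ∫ x in B, ({x | 1 / 4 ≤ u x}.indicator (fun _ => (1 : ℝ)) x +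
          1 / 4) ∂ν := by
        refine setIntegral_mono_on hi4 ?_ hB fun x _ => ?_
        · exact ((integrable_const _).indicator (measurableSet_le measurable_const hum)).add
            (integrable_const _)
        · by_cases hx : 1 / 4 ≤ u x
          · rw [indicator_of_mem (by exact hx)]
            linarith [hu1 x]
          · rw [indicator_of_notMem (by exact hx)]
            linarith
      refine h4.trans ?_
      rw [integral_add ((integrable_const _).indicator (measurableSet_le measurable_const hum))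
        (integrable_const _), setIntegral_indicator (measurableSet_le measurable_const hum)]
      simp only [setIntegral_const, smul_eq_mul, mul_one]
      rw [← hb]
      linarith
    have h5 : (1 / 4 : ℝ) ^ (j + 1) ≤ ν.real B' := by
      rw [pow_succ, ← hp]
      linarith
    have h6 := hEN B' hB'm h5
    -- lower bound for `u` on the thickening
    obtain ⟨e1, he1⟩ : ∃ e1 : ℝ, e1 = Real.exp (-(j * Real.log 2 / 2)) := ⟨_, rfl⟩
    have he0 : 0 < e1 := by rw [he1]; exact Real.exp_pos _
    have hee : e1 ^ 2 = τ := by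
      rw [he1, hτ, ← Real.exp_nat_mul, show (1 / 2 : ℝ) = Real.exp (-Real.log 2) by
        rw [Real.exp_neg, Real.exp_log (by norm_num)]; norm_num, ← Real.exp_nat_mul]
      congr 1
      push_cast
      ring
    have h7 : ∀ x' ∈ Metric.thickening (21 / 10 * R) B', e1 / 16 ≤ u x' := by
      intro x' hx'
      obtain ⟨x, hx, hd⟩ := Metric.mem_thickening_iff.1 hx'
      have h8 := h2 k h U x x' hh hUm
      have h9 : Real.exp (-(j * Real.log 2 / 2)) ≤ Real.exp (-(‖x - x'‖ ^ 2 / h)) := by
        apply Real.exp_le_exp.2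
        have h10 : ‖x - x'‖ ^ 2 ≤ (21 / 10 * R) ^ 2 := by
          rw [← dist_eq_norm, dist_comm]
          exact pow_le_pow_left₀ dist_nonneg hd.le 2
        have h11 : ‖x - x'‖ ^ 2 / h ≤ (21 / 10 * R) ^ 2 / h :=
          div_le_div_of_nonneg_right h10 hh.le
        have h12 : (21 / 10 * R) ^ 2 / h = j * Real.log 2 / 2 := by
          rw [hhdef]
          field_simp
        linarith
      have h13 : (1 / 4 : ℝ) ^ 2 ≤ u x ^ 2 := pow_le_pow_left₀ (by norm_num) hx.2 2
      calc e1 / 16 = (1 / 4 : ℝ) ^ 2 * e1 := by ring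
        _ ≤ u x ^ 2 * Real.exp (-(‖x - x'‖ ^ 2 / h)) :=
            mul_le_mul h13 (by rw [he1]; exact h9) he0.le (sq_nonneg _)
        _ ≤ u x' := h8
    have h14 : e1 / 32 ≤ ∫ x, u x ∂ν := by
      calc e1 / 32 = e1 / 16 * (1 / 2) := by ring
        _ ≤ e1 / 16 * ν.real (Metric.thickening (21 / 10 * R) B') :=
            mul_le_mul_of_nonneg_left h6 (by positivity)
        _ = ∫ x in Metric.thickening (21 / 10 * R) B', (e1 / 16 : ℝ) ∂ν := by
            rw [setIntegral_const, smul_eq_mul, mul_comm]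
        _ ≤ ∫ x in Metric.thickening (21 / 10 * R) B', u x ∂ν :=
            setIntegral_mono_on (integrable_const _) hi1.integrableOn
              Metric.isOpen_thickening.measurableSet h7
        _ ≤ ∫ x, u x ∂ν := setIntegral_le_integral hi1 (Eventually.of_forall hu0)
    have h15 : τ * (gc (Fin k) h * ∫ x, u x ∂ν) ≤ gc (Fin k) h * b := by
      rw [← hi3, ← hib, ← integral_const_mul]
      refine integral_mono (hi2.const_mul _) hi8 fun y => ?_
      simp only
      by_cases hy : y ∈ U
      · rw [hf, indicator_of_mem hy, one_mul, ← hβz]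
        exact mul_le_mul_of_nonneg_right (le_of_lt hy) (hzp y).le
      · rw [hf, indicator_of_notMem hy, zero_mul, mul_zero]
        exact hn0 y
    have h16 : τ * ∫ x, u x ∂ν ≤ b := by
      have : gc (Fin k) h * (τ * ∫ x, u x ∂ν) ≤ gc (Fin k) h * b := by linarith
      exact le_of_mul_le_mul_left this hg0
    have h17 : τ * (e1 / 32) ≤ b := (mul_le_mul_of_nonneg_left h14 hτ0.le).trans h16
    have h18 : τ * (e1 / 32) < τ * (4 * τ) := by
      calc τ * (e1 / 32) ≤ b := h17
        _ < 4 * p := hb4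
        _ = τ * (4 * τ) := by rw [← hττ]; ring
    have h19 : e1 / 32 < 4 * τ := lt_of_mul_lt_mul_left h18 hτ0.le
    rw [← hee] at h19
    have h20 : 1 / 128 < e1 := by
      by_contra hc
      rw [not_lt] at hc
      have : e1 * e1 ≤ e1 * (1 / 128) := mul_le_mul_of_nonneg_left hc he0.le
      nlinarith
    have h21 : τ ≤ (1 / 2) ^ 14 := by
      rw [hτ]
      exact pow_le_pow_of_le_one (by norm_num) (by norm_num) (by omega)
    have h22 : (1 / 128 : ℝ) ^ 2 < e1 ^ 2 := pow_lt_pow_left₀ h20 (by norm_num) (by norm_num)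
    rw [hee] at h22
    norm_num at h21 h22
    linarith
  -- Claim 2
  obtain ⟨hc1, hc2⟩ := h1 k h s B0 ν B hh hs0 hs1 hPB hPLS hB
  have hτs : τ ^ (-s) = 16 := by
    rw [hτ, ← Real.rpow_natCast, ← Real.rpow_mul (by norm_num), hs]
    rw [show (j : ℝ) * -(4 / (j : ℝ)) = ((-4 : ℤ) : ℝ) by push_cast; field_simp,
      Real.rpow_intCast]
    norm_num
  have hlow : 8 * (gc (Fin k) h * b) ≤ ∫ y, (nz h ν B y / zn h ν y) ^ (1 - s) * zn h ν y := by
    have h3 : ∫ y, 16 * (nz h ν B y - f y * nz h ν B y) ≤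
        ∫ y, (nz h ν B y / zn h ν y) ^ (1 - s) * zn h ν y := by
      refine integral_mono ((hi8.sub hi5).const_mul _) hc1 fun y => ?_
      simp only
      by_cases hy : y ∈ U
      · rw [hf, indicator_of_mem hy, one_mul, sub_self, mul_zero]
        exact mul_nonneg (Real.rpow_nonneg (hβ0 y) _) (hzp y).le
      · rw [hf, indicator_of_notMem hy, zero_mul, sub_zero]
        change 16 * nz h ν B y ≤ (β y) ^ (1 - s) * zn h ν y
        rw [← hβz y, ← mul_assoc]
        refine mul_le_mul_of_nonneg_right ?_ (hzp y).le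
        have hy' : β y ≤ τ := not_lt.1 hy
        rcases (hβ0 y).eq_or_lt with h0 | h0
        · rw [← h0, mul_zero]
          exact Real.rpow_nonneg le_rfl _
        · rw [sub_eq_add_neg, Real.rpow_add h0, Real.rpow_one, mul_comm, ← hτs]
          exact mul_le_mul_of_nonneg_left
            (Real.rpow_le_rpow_of_nonpos h0 hy' (by linarith)) h0.le
    rw [integral_const_mul, integral_sub hi8 hi5, hib] at h3
    linarith
  have hup : ∫ z, Real.exp (-((1 - s) / (2 * h * s) * Metric.infDist z B ^ 2)) ∂ν ≤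
      ν.real (Metric.thickening (R / 10) B) + p := by
    have hcpos : 0 ≤ (1 - s) / (2 * h * s) := div_nonneg (by linarith) (by positivity)
    have h3 : ∀ z : E k, Real.exp (-((1 - s) / (2 * h * s) * Metric.infDist z B ^ 2)) ≤
        (Metric.thickening (R / 10) B).indicator (fun _ => (1 : ℝ)) z + p := by
      intro z
      by_cases hz : z ∈ Metric.thickening (R / 10) B
      · rw [indicator_of_mem hz]
        have : Real.exp (-((1 - s) / (2 * h * s) * Metric.infDist z B ^ 2)) ≤ 1 := by
          rw [Real.exp_le_one_iff]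
          have : 0 ≤ (1 - s) / (2 * h * s) * Metric.infDist z B ^ 2 := by positivity
          linarith
        linarith
      · rw [indicator_of_notMem hz, zero_add]
        have h4 : R / 10 ≤ Metric.infDist z B := by
          rw [Metric.mem_thickening_iff_infDist_lt hBne] at hz
          exact not_lt.1 hz
        have h5 : Real.exp (-((1 - s) / (2 * h * s) * Metric.infDist z B ^ 2)) ≤
            Real.exp (-((1 - s) / (2 * h * s) * (R / 10) ^ 2)) := by
          apply Real.exp_le_exp.2
          have := mul_le_mul_of_nonneg_left (pow_le_pow_left₀ (by positivity) h4 2) hcpos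
          linarith
        refine h5.trans ?_
        rw [hs, hhdef, hp]
        exact num2 hj hR
    have h6 : Integrable (fun z : E k =>
        Real.exp (-((1 - s) / (2 * h * s) * Metric.infDist z B ^ 2))) ν := by
      refine Integrable.of_bound ?_ 1 (Eventually.of_forall fun z => ?_)
      · have : Continuous (fun z : E k => Metric.infDist z B) := Metric.continuous_infDist_pt B
        exact (by fun_prop : Continuous (fun z : E k =>
          Real.exp (-((1 - s) / (2 * h * s) * Metric.infDist z B ^ 2)))).aestronglyMeasurable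
      · rw [Real.norm_of_nonneg (Real.exp_pos _).le, Real.exp_le_one_iff]
        have : 0 ≤ (1 - s) / (2 * h * s) * Metric.infDist z B ^ 2 := by positivity
        linarith
    have h7 : Integrable ((Metric.thickening (R / 10) B).indicator (fun _ => (1 : ℝ))) ν :=
      (integrable_const _).indicator Metric.isOpen_thickening.measurableSet
    calc ∫ z, Real.exp (-((1 - s) / (2 * h * s) * Metric.infDist z B ^ 2)) ∂ν
        ≤ ∫ z, ((Metric.thickening (R / 10) B).indicator (fun _ => (1 : ℝ)) z + p) ∂ν :=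
          integral_mono h6 (h7.add (integrable_const _)) h3
      _ = _ := by
          rw [integral_add h7 (integrable_const _),
            integral_indicator Metric.isOpen_thickening.measurableSet]
          simp
  have h8 : gc (Fin k) h * (8 * b) ≤
      gc (Fin k) h * (ν.real (Metric.thickening (R / 10) B) + p) := by
    calc gc (Fin k) h * (8 * b) = 8 * (gc (Fin k) h * b) := by ring
      _ ≤ _ := hlow
      _ ≤ _ := hc2
      _ ≤ _ := mul_le_mul_of_nonneg_left hup hg0.le
  have h9 := le_of_mul_le_mul_left h8 hg0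
  rw [← hp] at hlt
  linarith

end Pool.Agent.N488.KM
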